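import Pool.Agent.W842.KF.Stm

set_option autoImplicit false

/-!
# S_HOEF: the Hoeffding bound for independent bits, counting form
-/

namespace Pool.Agent.W177.KF

open Finset Pool.Agent.Helper635.LLL Pool.Agent.W842.KF

open Classical

/-- the sign of a bit -/
def sgn (b : Bool) : ℝ := if b then 1 else -1

theorem exp_sum_le {T : Type} [Fintype T] (D : T → ℝ) (l : ℝ) :
    ∑ ω : T → Bool, Real.exp (l * ∑ t, sgn (ω t) * D t) ≤
      (Fintype.card (T → Bool) : ℝ) * Real.exp (l ^ 2 / 2 * ∑ t, D t ^ 2) := by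
  have h1 : ∑ ω : T → Bool, Real.exp (l * ∑ t, sgn (ω t) * D t) =
      ∏ t, ∑ b : Bool, Real.exp (l * (sgn b * D t)) := by
    rw [Finset.prod_univ_sum, Fintype.piFinset_univ]
    refine Finset.sum_congr rfl fun ω _ => ?_
    rw [← Real.exp_sum, Finset.mul_sum]
  have h2 : ∀ t, ∑ b : Bool, Real.exp (l * (sgn b * D t)) ≤
      2 * Real.exp (l ^ 2 / 2 * D t ^ 2) := by
    intro t
    have h3 := Real.cosh_le_exp_half_sq (l * D t)
    have e1 : (l * D t) ^ 2 / 2 = l ^ 2 / 2 * D t ^ 2 := by ring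
    rw [e1, Real.cosh_eq] at h3
    rw [Fintype.sum_bool]
    have e2 : l * (sgn true * D t) = l * D t := by simp [sgn]
    have e3 : l * (sgn false * D t) = -(l * D t) := by simp [sgn]
    rw [e2, e3]
    linarith
  have h3 : (Fintype.card (T → Bool) : ℝ) = ∏ _t : T, (2 : ℝ) := by
    rw [Fintype.card_fun, Fintype.card_bool, Finset.prod_const, Finset.card_univ]
    push_cast
    rfl
  rw [h1, h3, Finset.mul_sum, Real.exp_sum, ← Finset.prod_mul_distrib]
  exact Finset.prod_le_prod (fun t _ => Finset.sum_nonneg fun b _ => (Real.exp_pos _).le)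
    fun t _ => h2 t

theorem t_hoef : S_HOEF := by
  intro T _ K e he f Q φ Λ hφ hΛ hQ hsum
  rcases Nat.eq_zero_or_pos Q with hQ0 | hQ0
  · subst hQ0
    have hz : ∀ P b, f P b = 0 := by
      intro P b
      have := hQ P
      cases b <;> omega
    have h0 : cnt (fun ω : T → Bool => φ / 2 + √(((0 : ℕ) : ℝ) * φ * Λ / 2) <
        ∑ P, (f P (ω (e P)) : ℝ)) = 0 := by
      unfold cnt
      rw [Finset.card_eq_zero, Finset.eq_empty_iff_forall_notMem]
      intro ω hω
      rw [mem_ev] at hω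
      have h1 : ∑ P, (f P (ω (e P)) : ℝ) = 0 := Finset.sum_eq_zero fun P _ => by
        rw [hz]; simp
      rw [h1] at hω
      have h2 := Real.sqrt_nonneg (((0 : ℕ) : ℝ) * φ * Λ / 2)
      linarith
    rw [h0, Nat.cast_zero]
    positivity
  · have hQr : (0 : ℝ) < Q := by exact_mod_cast hQ0
    have hQφ : 0 < (Q : ℝ) * φ := mul_pos hQr hφ
    obtain ⟨t, ht⟩ : ∃ t, t = √((Q : ℝ) * φ * Λ / 2) := ⟨_, rfl⟩
    have ht0 : 0 < t := by rw [ht]; positivity
    have ht2 : t ^ 2 = (Q : ℝ) * φ * Λ / 2 := by rw [ht, Real.sq_sqrt (by positivity)]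
    rw [← ht]
    obtain ⟨l, hl⟩ : ∃ l, l = 4 * t / ((Q : ℝ) * φ) := ⟨_, rfl⟩
    have hl0 : 0 < l := by rw [hl]; positivity
    obtain ⟨d, hd⟩ : ∃ d : Fin K → ℝ, d = fun P => ((f P true : ℝ) - f P false) / 2 := ⟨_, rfl⟩
    obtain ⟨D, hD⟩ : ∃ D : T → ℝ, D = fun s => ∑ P, if e P = s then d P else 0 := ⟨_, rfl⟩
    have hDe : ∀ P, D (e P) = d P := by
      intro P
      rw [hD]
      simp only
      rw [Finset.sum_eq_single P]
      · rw [if_pos rfl]
      · intro P' _ hP'
        rw [if_neg fun h => hP' (he h)]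
      · intro h; exact absurd (mem_univ P) h
    have hDn : ∀ s, (∀ P, e P ≠ s) → D s = 0 := by
      intro s hs
      rw [hD]
      exact Finset.sum_eq_zero fun P _ => by rw [if_neg (hs P)]
    -- sums over `T` become sums over `P`
    have hcol : ∀ g : T → ℝ, (∀ s, (∀ P, e P ≠ s) → g s = 0) → ∑ s, g s = ∑ P, g (e P) := by
      intro g hg
      rw [← Finset.sum_image (s := univ) (g := e) (f := g) (fun a _ b _ h => he h)]
      symm
      refine Finset.sum_subset (Finset.subset_univ _) fun s _ hs => hg s fun P hP => hs ?_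
      rw [Finset.mem_image]
      exact ⟨P, mem_univ _, hP⟩
    have hD2 : ∑ s, D s ^ 2 = ∑ P, d P ^ 2 := by
      rw [hcol (fun s => D s ^ 2) fun s hs => by simp only [hDn s hs]; norm_num]
      exact Finset.sum_congr rfl fun P _ => by rw [hDe]
    have hdle : ∑ P, d P ^ 2 ≤ (Q : ℝ) * φ / 4 := by
      have h1 : ∀ P, d P ^ 2 ≤ (Q : ℝ) / 4 * ((f P false : ℝ) + f P true) := by
        intro P
        rw [hd]
        simp only
        have g1 : (0 : ℝ) ≤ f P false := Nat.cast_nonneg _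
        have g2 : (0 : ℝ) ≤ f P true := Nat.cast_nonneg _
        have g3 : (f P false : ℝ) + f P true ≤ Q := by exact_mod_cast hQ P
        nlinarith [mul_nonneg g1 g2, mul_le_mul_of_nonneg_right g3 (add_nonneg g1 g2)]
      calc ∑ P, d P ^ 2 ≤ ∑ P, (Q : ℝ) / 4 * ((f P false : ℝ) + f P true) :=
            Finset.sum_le_sum fun P _ => h1 P
        _ = (Q : ℝ) / 4 * ∑ P, ((f P false : ℝ) + f P true) := by rw [Finset.mul_sum]
        _ ≤ (Q : ℝ) / 4 * φ := mul_le_mul_of_nonneg_left hsum (by positivity)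
        _ = _ := by ring
    have key := exp_sum_le D l
    have hval : ∀ ω : T → Bool, ∑ P, (f P (ω (e P)) : ℝ) =
        (∑ P, ((f P false : ℝ) + f P true)) / 2 + ∑ s, sgn (ω s) * D s := by
      intro ω
      rw [hcol (fun s => sgn (ω s) * D s) fun s hs => by simp only [hDn s hs, mul_zero],
        Finset.sum_div, ← Finset.sum_add_distrib]
      refine Finset.sum_congr rfl fun P _ => ?_
      rw [hDe, hd]
      simp only
      cases ω (e P)
      · simp only [sgn]
        norm_num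
        ring
      · simp only [sgn]
        norm_num
        ring
    have hmark : (cnt (fun ω : T → Bool => φ / 2 + t < ∑ P, (f P (ω (e P)) : ℝ)) : ℝ) *
        Real.exp (l * t) ≤ ∑ ω : T → Bool, Real.exp (l * ∑ s, sgn (ω s) * D s) := by
      have h1 : ∑ ω ∈ ev (fun ω : T → Bool => φ / 2 + t < ∑ P, (f P (ω (e P)) : ℝ)),
          Real.exp (l * t) ≤ ∑ ω : T → Bool, Real.exp (l * ∑ s, sgn (ω s) * D s) := by
        refine (Finset.sum_le_sum fun ω hω => ?_).trans
          (Finset.sum_le_sum_of_subset_of_nonneg (Finset.subset_univ _)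
            fun _ _ _ => (Real.exp_pos _).le)
        rw [mem_ev, hval ω] at hω
        apply Real.exp_le_exp.2
        apply mul_le_mul_of_nonneg_left _ hl0.le
        linarith
      rw [Finset.sum_const, nsmul_eq_mul] at h1
      exact h1
    have h5 : l ^ 2 / 2 * ∑ s, D s ^ 2 ≤ l * t - Λ := by
      rw [hD2]
      calc l ^ 2 / 2 * ∑ P, d P ^ 2 ≤ l ^ 2 / 2 * ((Q : ℝ) * φ / 4) :=
            mul_le_mul_of_nonneg_left hdle (by positivity)
        _ = 2 * t ^ 2 / ((Q : ℝ) * φ) := by rw [hl]; field_simp; ring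
        _ = 4 * t ^ 2 / ((Q : ℝ) * φ) - 2 * t ^ 2 / ((Q : ℝ) * φ) := by ring
        _ = l * t - Λ := by
          have e1 : 4 * t ^ 2 / ((Q : ℝ) * φ) = l * t := by rw [hl]; ring
          have e2 : 2 * t ^ 2 / ((Q : ℝ) * φ) = Λ := by
            rw [ht2]; field_simp
          rw [e1, e2]
    have h6 : (cnt (fun ω : T → Bool => φ / 2 + t < ∑ P, (f P (ω (e P)) : ℝ)) : ℝ) *
        Real.exp (l * t) ≤ Real.exp (-Λ) * (Fintype.card (T → Bool) : ℝ) * Real.exp (l * t) := by
      refine (hmark.trans key).trans ?_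
      have h7 : Real.exp (l ^ 2 / 2 * ∑ s, D s ^ 2) ≤ Real.exp (l * t - Λ) :=
        Real.exp_le_exp.2 h5
      have h8 : Real.exp (l * t - Λ) = Real.exp (-Λ) * Real.exp (l * t) := by
        rw [← Real.exp_add]; congr 1; ring
      rw [h8] at h7
      calc (Fintype.card (T → Bool) : ℝ) * Real.exp (l ^ 2 / 2 * ∑ s, D s ^ 2)
          ≤ (Fintype.card (T → Bool) : ℝ) * (Real.exp (-Λ) * Real.exp (l * t)) :=
            mul_le_mul_of_nonneg_left h7 (Nat.cast_nonneg _)
        _ = _ := by ring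
    exact le_of_mul_le_mul_right h6 (Real.exp_pos _)

end Pool.Agent.W177.KF
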